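import Pool.Agent.Y137.GN.Main
import Pool.Agent.TH117.F5.Crys

/-!
# Crystalline Tate classes on abelian varieties of dimension at most five, and on products of elliptic
curves and abelian surfaces
-/

set_option autoImplicit false
set_option linter.unusedSectionVars false
set_option linter.unusedVariables false

namespace Pool.Agent.R299.CRY

open Module Pool.Agent.W495.TA Pool.Agent.W547.KB Pool.Agent.TH117.F5 Pool.Agent.Y137.SF
  Pool.Agent.Y137.GN
open scoped TensorProduct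

noncomputable section

variable {p : ℕ} [Fact p.Prime] {ν : PadicAlgCl p ≃+* ℂ}

/-- The space `A` contains each Tate class `g` on `V₀` whose extension of scalars to `Ω` belongs to
the system `AlgS`. -/
def ContainsAlgS {Y : RedAV p ν} (s : ℕ) {K₀ Ω V₀ : Type} [Field K₀] [Field Ω] [CharZero Ω]
    [Algebra K₀ Ω] [AddCommGroup V₀] [Module K₀ V₀] (F₀ : V₀ →ₗ[K₀] V₀)
    (e : (Ω ⊗[K₀] V₀) ≃ₗ[Ω] TM Ω Y) {m : ℕ}
    (A : Submodule K₀ (V₀ [⋀^Fin (2 * m)]→ₗ[K₀] K₀)) : Prop :=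
  ∀ (g : V₀ [⋀^Fin (2 * m)]→ₗ[K₀] K₀) (G : (TM Ω Y) [⋀^Fin (2 * m)]→ₗ[Ω] Ω),
    IsTateCrys F₀ ((p ^ Y.a) ^ s) m g → AlgS Ω {4, 6} Y (Fin (2 * m)) G →
      (∀ u : Fin (2 * m) → V₀, G (fun k => e ((1 : Ω) ⊗ₜ[K₀] u k)) = algebraMap K₀ Ω (g u)) →
        g ∈ A

/-- The crystalline Tate conjecture, linear form. -/
theorem crysS {Y : RedAV p ν} (hY : IsGoodAVS Y) (s : ℕ)
    (hs : 0 < s) {K₀ Ω V₀ : Type} [Field K₀] [CharZero K₀] [Field Ω] [IsAlgClosed Ω] [CharZero Ω]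
    [Algebra K₀ Ω] [AddCommGroup V₀] [Module K₀ V₀] [FiniteDimensional K₀ V₀]
    (F₀ : V₀ →ₗ[K₀] V₀) (e : (Ω ⊗[K₀] V₀) ≃ₗ[Ω] TM Ω Y) (he : IsCrystalline Y s F₀ e) {m : ℕ}
    (A : Submodule K₀ (V₀ [⋀^Fin (2 * m)]→ₗ[K₀] K₀)) (hA : ContainsAlgS s F₀ e A)
    (f : V₀ [⋀^Fin (2 * m)]→ₗ[K₀] K₀) (hf : IsTateCrys F₀ ((p ^ Y.a) ^ s) m f) : f ∈ A := by
  obtain ⟨G, hG⟩ := Pool.Agent.W547.UB.exists_baseChange (K := Ω) f
  let G' : (TM Ω Y) [⋀^Fin (2 * m)]→ₗ[Ω] Ω := G.compLinearMap (e.symm : TM Ω Y →ₗ[Ω] Ω ⊗[K₀] V₀)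
  have hG' : ∀ v, G' (fun k => e (v k)) = G v := by
    intro v
    change G (fun k => e.symm (e (v k))) = G v
    congr 1
    funext k
    exact e.symm_apply_apply _
  have hTate : IsTateClass Ω Y s m G' := by
    -- both sides are multilinear
    have h1 : G.compLinearMap (F₀.baseChange Ω) = (((p : Ω) ^ Y.a) ^ (m * s)) • G := by
      apply Pool.Agent.W547.UB.eq_of_restr₀
      intro u
      have h2 : (G.compLinearMap (F₀.baseChange Ω)) (fun k => (1 : Ω) ⊗ₜ[K₀] u k) =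
          G (fun k => (1 : Ω) ⊗ₜ[K₀] F₀ (u k)) := rfl
      rw [h2, hG, hf u, AlternatingMap.smul_apply, hG, map_mul, map_pow, smul_eq_mul]
      congr 1
      push_cast
      rw [← pow_mul, mul_comm s m]
    intro v
    have h3 : (fun k => (F Ω Y ^ s) (v k)) = fun k => e (F₀.baseChange Ω (e.symm (v k))) := by
      funext k
      rw [he.comm, e.apply_symm_apply]
    have h4 : v = fun k => e (e.symm (v k)) := by
      funext k
      rw [e.apply_symm_apply]
    rw [h3, hG']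
    conv_rhs => rw [h4, hG']
    exact congrArg (fun g => g (fun k => e.symm (v k))) h1
  refine hA f G' hf (algS_goodS hY s m hs G' hTate) fun u => ?_
  rw [hG' fun k => (1 : Ω) ⊗ₜ[K₀] u k]
  exact hG u

/-- The crystalline Frobenius endomorphism of the fraction field of the Witt vectors and of the dual
space of the first crystalline cohomology group: `σ` is an automorphism of `K₀` whose `r`-th power is
trivial, `Φ` is the semilinear endomorphism of `V₀` which is dual to the crystalline Frobenius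
endomorphism of the first cohomology group, and its `r`-th power is the linear map `F₀`. -/
structure IsSemilinearFrobenius {K₀ V₀ : Type} [Field K₀] [AddCommGroup V₀] [Module K₀ V₀]
    (r : ℕ) (σ : K₀ ≃+* K₀) (Φ : V₀ → V₀) (F₀ : V₀ →ₗ[K₀] V₀) : Prop where
  pow_sigma : ∀ x, (σ^[r]) x = x
  add : ∀ v w, Φ (v + w) = Φ v + Φ w
  smul : ∀ (c : K₀) v, Φ (c • v) = σ.symm c • Φ v
  pow_phi : ∀ v, (Φ^[r]) v = F₀ v

/-- The form `f` on `V₀`, a class in the crystalline cohomology group of degree `2 m`, is multiplied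
by `p ^ m` by the (semilinear) crystalline Frobenius endomorphism: the image of `f` under the
crystalline Frobenius endomorphism is `v ↦ σ (f (Φ v))`. -/
def IsFrobFixed {K₀ V₀ : Type} [Field K₀] [AddCommGroup V₀] [Module K₀ V₀] (p : ℕ)
    (σ : K₀ ≃+* K₀) (Φ : V₀ → V₀) {m : ℕ} (f : V₀ [⋀^Fin (2 * m)]→ₗ[K₀] K₀) : Prop :=
  ∀ v : Fin (2 * m) → V₀, σ (f (fun k => Φ (v k))) = (p : K₀) ^ m * f v

theorem iterate_fixed {K₀ V₀ : Type} [Field K₀] [AddCommGroup V₀] [Module K₀ V₀] (p : ℕ)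
    (σ : K₀ ≃+* K₀) (Φ : V₀ → V₀) {m : ℕ} (f : V₀ [⋀^Fin (2 * m)]→ₗ[K₀] K₀)
    (hf : IsFrobFixed p σ Φ f) (r : ℕ) (v : Fin (2 * m) → V₀) :
    (σ^[r]) (f (fun k => (Φ^[r]) (v k))) = ((p : K₀) ^ m) ^ r * f v := by
  induction r generalizing v with
  | zero => simp
  | succ r ih =>
    have h1 : (fun k => (Φ^[r + 1]) (v k)) = fun k => (Φ^[r]) (Φ (v k)) := by
      funext k
      rw [Function.iterate_succ_apply]
    rw [h1, Function.iterate_succ_apply', ih (fun k => Φ (v k)), map_mul, hf v, map_pow, map_pow,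
      map_natCast]
    ring

/-- The linear combinations of elements of `Cyc` with coefficients fixed by `σ`. -/
def FixedSpan {K₀ M : Type} [Field K₀] [AddCommGroup M] [Module K₀ M] (σ : K₀ ≃+* K₀)
    (Cyc : Set M) (f : M) : Prop :=
  ∃ l : M →₀ K₀, (∀ c ∈ l.support, c ∈ Cyc) ∧ (∀ c, σ (l c) = l c) ∧ f = l.sum fun c x => x • c

/-- Descent of the coefficients to the fixed field. -/
theorem fixedSpan_of_span {K₀ M : Type} [Field K₀] [AddCommGroup M] [Module K₀ M]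
    (σ : K₀ ≃+* K₀) (T : M → M) (hadd : ∀ x y, T (x + y) = T x + T y)
    (hsmul : ∀ (c : K₀) x, T (c • x) = σ c • T x) (Cyc : Set M) (hC : ∀ c ∈ Cyc, T c = c) (f : M)
    (hf : f ∈ Submodule.span K₀ Cyc) (hT : T f = f) : FixedSpan σ Cyc f := by
  classical
  obtain ⟨b, hbC, hbs, hbi⟩ := exists_linearIndependent K₀ Cyc
  rw [← hbs] at hf
  have hf' : f ∈ Submodule.span K₀ (Set.range (Subtype.val : b → M)) := by
    simpa using hf
  rw [Finsupp.mem_span_range_iff_exists_finsupp] at hf'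
  obtain ⟨l, hl⟩ := hf'
  have hzero : T 0 = 0 := by
    have := hsmul 0 0
    simpa using this
  have key : ∀ l : b →₀ K₀, T (Finsupp.linearCombination K₀ (Subtype.val : b → M) l) =
      Finsupp.linearCombination K₀ (Subtype.val : b → M) (l.mapRange σ (map_zero σ)) := by
    intro l
    induction l using Finsupp.induction_linear with
    | zero => simp [hzero]
    | add f g hf hg =>
      rw [map_add, hadd, hf, hg, Finsupp.mapRange_add (by simp), map_add]
    | single a c =>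
      rw [Finsupp.mapRange_single, Finsupp.linearCombination_single,
        Finsupp.linearCombination_single, hsmul, hC _ (hbC a.2)]
  have hl' : f = Finsupp.linearCombination K₀ (Subtype.val : b → M) l := by
    rw [Finsupp.linearCombination_apply, hl]
  have h2 : l.mapRange σ (map_zero σ) = l := by
    apply hbi
    rw [← key, ← hl', hT]
  refine ⟨l.mapDomain Subtype.val, ?_, ?_, ?_⟩
  · intro c hc
    have := Finsupp.mapDomain_support hc
    simp only [Finset.mem_image] at this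
    obtain ⟨a, -, rfl⟩ := this
    exact hbC a.2
  · intro c
    by_cases hc : c ∈ b
    · have h3 : (l.mapDomain Subtype.val) c = l ⟨c, hc⟩ :=
        Finsupp.mapDomain_apply Subtype.val_injective l ⟨c, hc⟩
      rw [h3]
      have h4 := DFunLike.congr_fun h2 ⟨c, hc⟩
      simpa using h4
    · have h3 : (l.mapDomain Subtype.val) c = 0 := by
        apply Finsupp.mapDomain_of_notMem_range
        simpa using hc
      rw [h3, map_zero]
  · rw [hl', Finsupp.sum_mapDomain_index (by simp) (by intros; rw [add_smul]),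
      Finsupp.linearCombination_apply]

/-- The crystalline Frobenius endomorphism on forms. -/
def frobForm {K₀ V₀ : Type} [Field K₀] [AddCommGroup V₀] [Module K₀ V₀] {r : ℕ}
    {σ : K₀ ≃+* K₀} {Φ : V₀ → V₀} {F₀ : V₀ →ₗ[K₀] V₀} (h : IsSemilinearFrobenius r σ Φ F₀) {n : ℕ}
    (f : V₀ [⋀^Fin n]→ₗ[K₀] K₀) : V₀ [⋀^Fin n]→ₗ[K₀] K₀ where
  toFun v := σ (f (fun k => Φ (v k)))
  map_update_add' := by
    intro _ v i x y
    have hu : ∀ z, (fun k => Φ (Function.update v i z k)) =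
        Function.update (fun k => Φ (v k)) i (Φ z) := by
      intro z
      funext k
      by_cases hk : k = i
      · subst hk; simp
      · simp [hk]
    rw [hu, hu, hu, h.add, f.map_update_add, map_add]
  map_update_smul' := by
    intro _ v i c x
    have hu : ∀ z, (fun k => Φ (Function.update v i z k)) =
        Function.update (fun k => Φ (v k)) i (Φ z) := by
      intro z
      funext k
      by_cases hk : k = i
      · subst hk; simp
      · simp [hk]
    rw [hu, hu, h.smul, f.map_update_smul, smul_eq_mul, map_mul, RingEquiv.apply_symm_apply,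
      smul_eq_mul]
  map_eq_zero_of_eq' := by
    intro v i j hij hne
    have : f (fun k => Φ (v k)) = 0 := f.map_eq_zero_of_eq _ (by rw [hij]) hne
    rw [this, map_zero]

theorem isFrobFixed_iff {K₀ V₀ : Type} [Field K₀] [CharZero K₀] [AddCommGroup V₀] [Module K₀ V₀]
    {r : ℕ} {σ : K₀ ≃+* K₀} {Φ : V₀ → V₀} {F₀ : V₀ →ₗ[K₀] V₀}
    (h : IsSemilinearFrobenius r σ Φ F₀) {p : ℕ} (hp : p ≠ 0) {m : ℕ}
    (f : V₀ [⋀^Fin (2 * m)]→ₗ[K₀] K₀) :
    IsFrobFixed p σ Φ f ↔ ((p : K₀) ^ m)⁻¹ • frobForm h f = f := by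
  have hp' : ((p : K₀) ^ m) ≠ 0 := pow_ne_zero _ (Nat.cast_ne_zero.2 hp)
  constructor
  · intro hf
    ext v
    rw [AlternatingMap.smul_apply]
    change ((p : K₀) ^ m)⁻¹ • σ (f (fun k => Φ (v k))) = f v
    rw [hf v, smul_eq_mul, inv_mul_cancel_left₀ hp']
  · intro hf v
    have := DFunLike.congr_fun hf v
    rw [AlternatingMap.smul_apply] at this
    change ((p : K₀) ^ m)⁻¹ • σ (f (fun k => Φ (v k))) = f v at this
    rw [← this, smul_eq_mul, mul_inv_cancel_left₀ hp']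

/-- Forms fixed by the crystalline Frobenius endomorphism in the linear span of fixed forms are
linear combinations of these with fixed coefficients. -/
theorem fixedSpan_forms {K₀ V₀ : Type} [Field K₀] [CharZero K₀] [AddCommGroup V₀] [Module K₀ V₀]
    {r : ℕ} {σ : K₀ ≃+* K₀} {Φ : V₀ → V₀} {F₀ : V₀ →ₗ[K₀] V₀}
    (h : IsSemilinearFrobenius r σ Φ F₀) {p : ℕ} (hp : p ≠ 0) {m : ℕ}
    (Cyc : Set (V₀ [⋀^Fin (2 * m)]→ₗ[K₀] K₀)) (hC : ∀ c ∈ Cyc, IsFrobFixed p σ Φ c)
    (f : V₀ [⋀^Fin (2 * m)]→ₗ[K₀] K₀) (hf : f ∈ Submodule.span K₀ Cyc)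
    (hfix : IsFrobFixed p σ Φ f) : FixedSpan σ Cyc f := by
  refine fixedSpan_of_span σ (fun g => ((p : K₀) ^ m)⁻¹ • frobForm h g) ?_ ?_ Cyc
    (fun c hc => (isFrobFixed_iff h hp c).1 (hC c hc)) f hf ((isFrobFixed_iff h hp f).1 hfix)
  · intro x y
    rw [← smul_add]
    congr 1
    ext v
    exact map_add σ _ _
  · intro c x
    rw [smul_comm]
    congr 1
    ext v
    exact map_mul σ _ _

/-- A class fixed by the semilinear Frobenius endomorphism is a Tate class. -/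
theorem isTateCrys_of_frobFixed {K₀ V₀ : Type} [Field K₀] [AddCommGroup V₀] [Module K₀ V₀]
    {a s : ℕ} {σ : K₀ ≃+* K₀} {Φ : V₀ → V₀} {F₀ : V₀ →ₗ[K₀] V₀}
    (h : IsSemilinearFrobenius (a * s) σ Φ F₀) {p : ℕ} {m : ℕ}
    (f : V₀ [⋀^Fin (2 * m)]→ₗ[K₀] K₀) (hf : IsFrobFixed p σ Φ f) :
    IsTateCrys F₀ ((p ^ a) ^ s) m f := by
  intro v
  have h1 := iterate_fixed p σ Φ f hf (a * s) v
  rw [h.pow_sigma] at h1
  have h2 : (fun k => (Φ^[a * s]) (v k)) = fun k => F₀ (v k) := by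
    funext k
    exact h.pow_phi _
  rw [h2] at h1
  rw [h1]
  congr 1
  push_cast
  rw [← pow_mul, ← pow_mul, ← pow_mul]
  congr 1
  ring

/-- The crystalline Tate conjecture, in the linear form and in the form with coefficients fixed by the
Frobenius automorphism. -/
theorem main {Y : RedAV p ν} (hY : IsGoodAVS Y) (s : ℕ)
    (hs : 0 < s) {K₀ Ω V₀ : Type} [Field K₀] [CharZero K₀] [Field Ω] [IsAlgClosed Ω] [CharZero Ω]
    [Algebra K₀ Ω] [AddCommGroup V₀] [Module K₀ V₀] [FiniteDimensional K₀ V₀]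
    (F₀ : V₀ →ₗ[K₀] V₀) (e : (Ω ⊗[K₀] V₀) ≃ₗ[Ω] TM Ω Y) (he : IsCrystalline Y s F₀ e)
    (σ : K₀ ≃+* K₀) (Φ : V₀ → V₀) (hΦ : IsSemilinearFrobenius (Y.a * s) σ Φ F₀) {m : ℕ}
    (Cyc : Set (V₀ [⋀^Fin (2 * m)]→ₗ[K₀] K₀)) (hC : ∀ c ∈ Cyc, IsFrobFixed p σ Φ c)
    (hA : ContainsAlgS s F₀ e (Submodule.span K₀ Cyc)) (f : V₀ [⋀^Fin (2 * m)]→ₗ[K₀] K₀) :
    (IsTateCrys F₀ ((p ^ Y.a) ^ s) m f → f ∈ Submodule.span K₀ Cyc) ∧
      (IsFrobFixed p σ Φ f → FixedSpan σ Cyc f) := by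
  refine ⟨fun hf => crysS hY s hs F₀ e he _ hA f hf, fun hf => ?_⟩
  have hp : p ≠ 0 := (Fact.out : p.Prime).ne_zero
  exact fixedSpan_forms hΦ hp Cyc hC f
    (crysS hY s hs F₀ e he _ hA f (isTateCrys_of_frobFixed hΦ f hf)) hf

end

end Pool.Agent.R299.CRY
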